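import Pool.Agent.Helper18.NF.StN

/-!
Ideals weighted by a character of the norm (module NF-7).
-/

set_option autoImplicit false

open Finset Filter Topology NumberField Module MeasureTheory
open Pool.TP (idc)
open scoped nonZeroDivisors ArithmeticFunction.vonMangoldt Classical
open Pool.Agent.Helper18.NF Pool.Agent.Helper18.BV

namespace Pool.Agent.Helper37.NF

/-! ### abelian groups -/

section Grp

variable {A : Type} [AddCommGroup A] (q : ℕ)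

/-- the quotient by the multiples of `q` -/
abbrev Qg (A : Type) [AddCommGroup A] (q : ℕ) : Type := A ⧸ (nsmulAddMonoidHom (α := A) q).range

lemma split_bijective (hq : Function.Injective fun a : A => q • a) :
    Function.Bijective (fun p : Qg A q × A => (Quotient.out p.1 : A) + q • p.2) := by
  constructor
  · rintro ⟨x, β⟩ ⟨x', β'⟩ h
    have h' : (Quotient.out x : A) + q • β = (Quotient.out x' : A) + q • β' := h
    have key : ∀ (y : Qg A q) (γ : A),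
        (QuotientAddGroup.mk ((Quotient.out y : A) + q • γ) : Qg A q) = y := by
      intro y γ
      have h1 : (QuotientAddGroup.mk (Quotient.out y : A) : Qg A q) = y := Quotient.out_eq y
      rw [QuotientAddGroup.mk_add, h1]
      have h2 : (QuotientAddGroup.mk (q • γ) : Qg A q) = 0 := by
        rw [QuotientAddGroup.eq_zero_iff]
        exact ⟨γ, rfl⟩
      rw [h2, add_zero]
    have hx : x = x' := by rw [← key x β, h', key x' β']
    subst hx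
    have : q • β = q • β' := add_left_cancel h'
    rw [hq this]
  · intro α
    set x : Qg A q := QuotientAddGroup.mk α with hx
    have h1 : (QuotientAddGroup.mk (Quotient.out x : A) : Qg A q) = QuotientAddGroup.mk α :=
      Quotient.out_eq x
    rw [QuotientAddGroup.eq] at h1
    obtain ⟨β, hβ⟩ := h1
    have hβ' : q • β = -(Quotient.out x : A) + α := hβ
    refine ⟨(x, β), ?_⟩
    show (Quotient.out x : A) + q • β = α
    rw [hβ']
    abel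

lemma finsum_split (hq : Function.Injective fun a : A => q • a) [Finite (Qg A q)]
    (F : A → ℂ) (hF : ∀ x : Qg A q, {β : A | F ((Quotient.out x : A) + q • β) ≠ 0}.Finite) :
    ∑ᶠ α, F α = ∑ᶠ x : Qg A q, ∑ᶠ β, F ((Quotient.out x : A) + q • β) := by
  rw [← finsum_comp_equiv (Equiv.ofBijective _ (split_bijective q hq))]
  rw [finsum_curry]
  · rfl
  · have : Function.support (fun p : Qg A q × A =>
        F (Equiv.ofBijective _ (split_bijective q hq) p)) ⊆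
        ⋃ x : Qg A q, (fun β => (x, β)) '' {β : A | F ((Quotient.out x : A) + q • β) ≠ 0} := by
      rintro ⟨x, β⟩ h
      exact Set.mem_iUnion.2 ⟨x, β, h, rfl⟩
    exact (Set.finite_iUnion fun x => (hF x).image _).subset this

variable {ι : Type} [Fintype ι]

/-- the class of an integral combination with digits below `q` -/
noncomputable def dig (e : Basis ι ℤ A) (a : ι → Fin q) : Qg A q :=
  QuotientAddGroup.mk (∑ i, ((a i : ℕ) : ℤ) • e i)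

lemma dig_surjective (e : Basis ι ℤ A) (hq : 0 < q) : Function.Surjective (dig q e) := by
  intro x
  obtain ⟨v, rfl⟩ := QuotientAddGroup.mk_surjective x
  have hq' : (q : ℤ) ≠ 0 := by exact_mod_cast hq.ne'
  refine ⟨fun i => ⟨((e.repr v i) % q).toNat, ?_⟩, ?_⟩
  · have h1 := Int.emod_lt_of_pos (e.repr v i) (by exact_mod_cast hq : (0 : ℤ) < q)
    have h0 := Int.emod_nonneg (e.repr v i) hq'
    omega
  · rw [dig, QuotientAddGroup.eq]
    refine ⟨∑ i, (e.repr v i / q) • e i, ?_⟩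
    show q • ∑ i, (e.repr v i / q) • e i = -∑ i, _ + v
    have hv : v = ∑ i, e.repr v i • e i := (e.sum_repr v).symm
    have h2 : ∀ i, (((e.repr v i) % q).toNat : ℤ) = (e.repr v i) % q := fun i =>
      Int.toNat_of_nonneg (Int.emod_nonneg _ hq')
    rw [Finset.smul_sum]
    conv_rhs => rw [hv]
    rw [neg_add_eq_sub, ← Finset.sum_sub_distrib]
    refine Finset.sum_congr rfl fun i _ => ?_
    rw [← sub_smul]
    simp only [hv.symm, h2]
    rw [← natCast_zsmul, smul_smul]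
    congr 1
    have := Int.emod_add_mul_ediv (e.repr v i) q
    linarith

lemma finite_Qg (e : Basis ι ℤ A) (hq : 0 < q) : Finite (Qg A q) :=
  Finite.of_surjective _ (dig_surjective q e hq)

lemma card_Qg (e : Basis ι ℤ A) (hq : 0 < q) : Nat.card (Qg A q) ≤ q ^ Fintype.card ι := by
  have h := Nat.card_le_card_of_surjective _ (dig_surjective q e hq)
  simpa using h

end Grp

/-! ### ideals -/

section Ideals

variable {K : Type} [Field K] [NumberField K]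

lemma nsmul_inj (𝔟 : Ideal (𝓞 K)) {q : ℕ} (hq : 0 < q) :
    Function.Injective fun a : 𝔟 => q • a := by
  intro a b h
  have h1 : ((q • a : 𝔟) : 𝓞 K) = ((q • b : 𝔟) : 𝓞 K) := congrArg Subtype.val h
  have h2 : (q : 𝓞 K) * (a : 𝓞 K) = (q : 𝓞 K) * (b : 𝓞 K) := by
    rw [← nsmul_eq_mul, ← nsmul_eq_mul]
    exact h1
  have hq' : (q : 𝓞 K) ≠ 0 := by exact_mod_cast hq.ne'
  exact Subtype.ext (mul_left_cancel₀ hq' h2)

lemma exists_basis (𝔟 : Ideal (𝓞 K)) (h : 𝔟 ≠ ⊥) :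
    ∃ (ι : Type) (_ : Fintype ι) (_ : Basis ι ℤ 𝔟), Fintype.card ι = finrank ℚ K := by
  refine ⟨_, inferInstance, Ideal.selfBasis (RingOfIntegers.basis K) 𝔟 h, ?_⟩
  rw [← Module.finrank_eq_card_chooseBasisIndex, RingOfIntegers.rank]

lemma finite_Qt (𝔟 : Ideal (𝓞 K)) (h : 𝔟 ≠ ⊥) {q : ℕ} (hq : 0 < q) :
    Finite (Qt 𝔟 q) ∧ Nat.card (Qt 𝔟 q) ≤ q ^ finrank ℚ K := by
  obtain ⟨ι, _, e, hι⟩ := exists_basis 𝔟 h
  refine ⟨finite_Qg q e hq, ?_⟩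
  rw [← hι]
  exact card_Qg q e hq

/-- the image of `β` in the mixed space -/
noncomputable def emb (β : 𝓞 K) : mixedEmbedding.mixedSpace K := mixedEmbedding K (β : K)

omit [NumberField K] in
lemma emb_add (α β : 𝓞 K) : emb (α + β) = emb α + emb β := by
  simp [emb]

omit [NumberField K] in
lemma emb_nat (q : ℕ) (β : 𝓞 K) : emb ((q : 𝓞 K) * β) = (q : ℝ) • emb β := by
  rw [emb, emb]
  push_cast
  rw [map_mul, map_natCast, ← nsmul_eq_mul, Nat.cast_smul_eq_nsmul]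

/-- an ideal and its lattice -/
noncomputable def latEquiv (𝔟 : (Ideal (𝓞 K))⁰) :
    (𝔟 : Ideal (𝓞 K)) ≃ mixedEmbedding.idealLattice K (FractionalIdeal.mk0 K 𝔟) :=
  Equiv.ofBijective (fun β => ⟨emb (β : 𝓞 K), by
    rw [mixedEmbedding.mem_idealLattice]
    refine ⟨((β : 𝓞 K) : K), ?_, rfl⟩
    rw [FractionalIdeal.coe_mk0]
    exact FractionalIdeal.mem_coeIdeal_of_mem _ β.2⟩) (by
    constructor
    · intro β β' h
      have h1 : emb (β : 𝓞 K) = emb (β' : 𝓞 K) := congrArg Subtype.val h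
      have h2 := mixedEmbedding_injective K h1
      exact Subtype.ext (RingOfIntegers.coe_injective h2)
    · rintro ⟨l, hl⟩
      obtain ⟨y, hy, rfl⟩ := (mixedEmbedding.mem_idealLattice K _).1 hl
      rw [FractionalIdeal.coe_mk0] at hy
      obtain ⟨β, hβ, rfl⟩ := (FractionalIdeal.mem_coeIdeal _).1 hy
      exact ⟨⟨β, hβ⟩, rfl⟩)

lemma latEquiv_apply (𝔟 : (Ideal (𝓞 K))⁰) (β : (𝔟 : Ideal (𝓞 K))) :
    ((latEquiv 𝔟 β : mixedEmbedding.idealLattice K (FractionalIdeal.mk0 K 𝔟)) :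
      mixedEmbedding.mixedSpace K) = emb (β : 𝓞 K) := rfl

/-- the covolume of the ideal -/
noncomputable def cov (𝔟 : (Ideal (𝓞 K))⁰) : ℝ :=
  ZLattice.covolume (mixedEmbedding.idealLattice K (FractionalIdeal.mk0 K 𝔟))

variable (K) in
/-- the covolume of the ring of integers -/
noncomputable def cov0 : ℝ := (2⁻¹) ^ InfinitePlace.nrComplexPlaces K * √|discr K|

lemma cov_eq (𝔟 : (Ideal (𝓞 K))⁰) : cov 𝔟 = Ideal.absNorm (𝔟 : Ideal (𝓞 K)) * cov0 K := by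
  rw [cov, mixedEmbedding.covolume_idealLattice, FractionalIdeal.coe_mk0,
    FractionalIdeal.coeIdeal_absNorm, Rat.cast_natCast, cov0, mul_assoc]

lemma cov0_pos : 0 < cov0 K := by
  unfold cov0
  have : (0 : ℝ) < |(discr K : ℝ)| := abs_pos.2 (by exact_mod_cast discr_ne_zero K)
  have h2 : (0 : ℝ) < √|(discr K : ℝ)| := Real.sqrt_pos.2 this
  positivity

lemma lat_sum (h1 : LatSum) (𝔟 : (Ideal (𝓞 K))⁰) (R : ℝ) (hR : 0 < R) :
    ∃ C : ℝ, 0 < C ∧ ∀ (A : ℝ) (H : mixedEmbedding.mixedSpace K → ℂ),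
      (∀ y z, ‖H y - H z‖ ≤ A * ‖y - z‖) → (∀ y, R < ‖y‖ → H y = 0) →
      ∀ (t : ℝ) (v : mixedEmbedding.mixedSpace K), 0 < t →
        {β : (𝔟 : Ideal (𝓞 K)) | H (t⁻¹ • (emb (β : 𝓞 K) + v)) ≠ 0}.Finite ∧
        ‖∑ᶠ β : (𝔟 : Ideal (𝓞 K)), H (t⁻¹ • (emb (β : 𝓞 K) + v)) -
          ((t ^ finrank ℚ K / cov 𝔟 : ℝ) : ℂ) * ∫ y, H y‖ ≤
          C * A * (1 + t) ^ (finrank ℚ K - 1) := by
  obtain ⟨C, hC, h⟩ := h1 (mixedEmbedding.mixedSpace K) volume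
    (mixedEmbedding.idealLattice K (FractionalIdeal.mk0 K 𝔟)) (finrank ℚ K)
    (mixedEmbedding.finrank K) finrank_pos R hR
  refine ⟨C, hC, fun A H hl hs t v ht => ?_⟩
  obtain ⟨hf, hb⟩ := h A H hl hs t v ht
  constructor
  · have : {β : (𝔟 : Ideal (𝓞 K)) | H (t⁻¹ • (emb (β : 𝓞 K) + v)) ≠ 0} =
        latEquiv 𝔟 ⁻¹' {l | H (t⁻¹ • ((l : mixedEmbedding.mixedSpace K) + v)) ≠ 0} := rfl
    rw [this]
    exact hf.preimage (latEquiv 𝔟).injective.injOn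
  · have e : ∑ᶠ β : (𝔟 : Ideal (𝓞 K)), H (t⁻¹ • (emb (β : 𝓞 K) + v)) =
        ∑ᶠ l : mixedEmbedding.idealLattice K (FractionalIdeal.mk0 K 𝔟),
          H (t⁻¹ • ((l : mixedEmbedding.mixedSpace K) + v)) :=
      finsum_comp_equiv (latEquiv 𝔟)
        (f := fun l => H (t⁻¹ • ((l : mixedEmbedding.mixedSpace K) + v)))
    rw [e]
    exact hb

lemma class_char (h4 : PerN) (𝔟 : (Ideal (𝓞 K))⁰) (H : mixedEmbedding.mixedSpace K → ℂ)
    (M : ℂ) (E : ℝ) (q : ℕ) [NeZero q] (χ : DirichletCharacter ℂ q) (t : ℝ) (ht : 0 < t)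
    (hfin : ∀ v : mixedEmbedding.mixedSpace K,
      {β : (𝔟 : Ideal (𝓞 K)) | H ((t / q)⁻¹ • (emb (β : 𝓞 K) + v)) ≠ 0}.Finite)
    (hb : ∀ v : mixedEmbedding.mixedSpace K,
      ‖∑ᶠ β : (𝔟 : Ideal (𝓞 K)), H ((t / q)⁻¹ • (emb (β : 𝓞 K) + v)) - M‖ ≤ E) :
    ‖∑ᶠ α : (𝔟 : Ideal (𝓞 K)), χ ((rn (𝔟 : Ideal (𝓞 K)) (α : 𝓞 K) : ℤ) : ZMod q) *
        H (t⁻¹ • emb (α : 𝓞 K)) - cs (𝔟 : Ideal (𝓞 K)) χ * M‖ ≤ (q : ℝ) ^ finrank ℚ K * E := by
  have hq : 0 < q := Nat.pos_of_ne_zero (NeZero.ne q)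
  have hqR : (0 : ℝ) < q := by exact_mod_cast hq
  have h𝔟 : (𝔟 : Ideal (𝓞 K)) ≠ ⊥ := nonZeroDivisors.coe_ne_zero 𝔟
  have hE : 0 ≤ E := (norm_nonneg _).trans (hb 0)
  obtain ⟨hQ, hcard⟩ := finite_Qt (𝔟 : Ideal (𝓞 K)) h𝔟 hq
  have key : ∀ (x : Qt (𝔟 : Ideal (𝓞 K)) q) (β : (𝔟 : Ideal (𝓞 K))),
      χ ((rn (𝔟 : Ideal (𝓞 K))
        (((Quotient.out x : (𝔟 : Ideal (𝓞 K))) + q • β : (𝔟 : Ideal (𝓞 K))) : 𝓞 K) : ℤ) :
          ZMod q) *
        H (t⁻¹ • emb (((Quotient.out x : (𝔟 : Ideal (𝓞 K))) + q • β : (𝔟 : Ideal (𝓞 K))) :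
          𝓞 K)) =
      χ ((rn (𝔟 : Ideal (𝓞 K)) ((Quotient.out x : (𝔟 : Ideal (𝓞 K))) : 𝓞 K) : ℤ) : ZMod q) *
        H ((t / q)⁻¹ • (emb (β : 𝓞 K) + (q : ℝ)⁻¹ •
          emb ((Quotient.out x : (𝔟 : Ideal (𝓞 K))) : 𝓞 K))) := by
    intro x β
    have e : ((((Quotient.out x : (𝔟 : Ideal (𝓞 K))) + q • β : (𝔟 : Ideal (𝓞 K))) : 𝓞 K)) =
        ((Quotient.out x : (𝔟 : Ideal (𝓞 K))) : 𝓞 K) + (q : 𝓞 K) * (β : 𝓞 K) := by
      rw [← nsmul_eq_mul]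
      rfl
    rw [e, h4 K (𝔟 : Ideal (𝓞 K)) h𝔟 q _ (Quotient.out x : (𝔟 : Ideal (𝓞 K))).2 _ β.2]
    congr 2
    rw [emb_add, emb_nat, inv_div, smul_add, smul_add, smul_smul, smul_smul]
    have e1 : (q : ℝ) / t * (q : ℝ)⁻¹ = t⁻¹ := by field_simp
    have e2 : t⁻¹ * (q : ℝ) = q / t := by field_simp
    rw [e1, e2, add_comm]
  rw [finsum_split q (nsmul_inj (𝔟 : Ideal (𝓞 K)) hq) (fun α : (𝔟 : Ideal (𝓞 K)) =>
    χ ((rn (𝔟 : Ideal (𝓞 K)) (α : 𝓞 K) : ℤ) : ZMod q) * H (t⁻¹ • emb (α : 𝓞 K)))]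
  · let _ : Fintype (Qt (𝔟 : Ideal (𝓞 K)) q) := Fintype.ofFinite _
    rw [cs, finsum_eq_sum_of_fintype, finsum_eq_sum_of_fintype, Finset.sum_mul,
      ← Finset.sum_sub_distrib]
    refine (norm_sum_le _ _).trans ?_
    have hterm : ∀ x ∈ (Finset.univ : Finset (Qt (𝔟 : Ideal (𝓞 K)) q)),
        ‖(∑ᶠ β : (𝔟 : Ideal (𝓞 K)), χ ((rn (𝔟 : Ideal (𝓞 K))
          (((Quotient.out x : (𝔟 : Ideal (𝓞 K))) + q • β : (𝔟 : Ideal (𝓞 K))) : 𝓞 K) : ℤ) :
            ZMod q) *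
          H (t⁻¹ • emb (((Quotient.out x : (𝔟 : Ideal (𝓞 K))) + q • β : (𝔟 : Ideal (𝓞 K))) :
            𝓞 K))) -
          χ ((rn (𝔟 : Ideal (𝓞 K)) ((Quotient.out x : (𝔟 : Ideal (𝓞 K))) : 𝓞 K) : ℤ) :
            ZMod q) * M‖ ≤ E := by
      intro x _
      simp only [key]
      rw [← mul_finsum, ← mul_sub, norm_mul]
      have hχ := DirichletCharacter.norm_le_one χ
        (((rn (𝔟 : Ideal (𝓞 K)) ((Quotient.out x : (𝔟 : Ideal (𝓞 K))) : 𝓞 K) : ℤ) : ZMod q))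
      calc _ ≤ 1 * E := mul_le_mul hχ (hb _) (norm_nonneg _) zero_le_one
        _ = E := one_mul E
    refine (Finset.sum_le_card_nsmul _ _ _ hterm).trans ?_
    rw [nsmul_eq_mul, Finset.card_univ, ← Nat.card_eq_fintype_card]
    have : ((Nat.card (Qt (𝔟 : Ideal (𝓞 K)) q) : ℕ) : ℝ) ≤ (q : ℝ) ^ finrank ℚ K := by
      exact_mod_cast hcard
    exact mul_le_mul_of_nonneg_right this hE
  · intro x
    refine (hfin ((q : ℝ)⁻¹ • emb ((Quotient.out x : (𝔟 : Ideal (𝓞 K))) : 𝓞 K))).subset ?_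
    intro β hβ h0
    refine hβ ?_
    have := key x β
    rw [h0, mul_zero] at this
    exact this

/-- the summand of `Unfold` is the character of the relative norm -/
lemma summand_eq {C R B : ℝ} {G : ℝ → ℂ} {H : mixedEmbedding.mixedSpace K → ℂ}
    (hH : IsH K C R B G H) (𝔟 : Ideal (𝓞 K)) {q : ℕ} (χ : DirichletCharacter ℂ q) (s : ℝ)
    (hs : 0 < s) (α : 𝓞 K) :
    χ ((((Algebra.norm ℤ α).natAbs / Ideal.absNorm 𝔟 : ℕ)) : ZMod q) *
      H (s • mixedEmbedding K (α : K)) =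
    χ ((rn 𝔟 α : ℤ) : ZMod q) * H (s • emb α) := by
  by_cases h0 : H (s • mixedEmbedding K (α : K)) = 0
  · rw [emb, h0, mul_zero, mul_zero]
  · have hpos := hH.pos (α : K) s hs h0
    have hpos' : 0 < Algebra.norm ℤ α := by
      rw [← Algebra.coe_norm_int] at hpos
      exact_mod_cast hpos
    have e : ((rn 𝔟 α : ℤ) : ZMod q) =
        ((((Algebra.norm ℤ α).natAbs / Ideal.absNorm 𝔟 : ℕ)) : ZMod q) := by
      have e1 : (rn 𝔟 α : ℤ) = (((Algebra.norm ℤ α).natAbs / Ideal.absNorm 𝔟 : ℕ) : ℤ) := by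
        rw [rn, Int.natCast_div, Int.natAbs_of_nonneg hpos'.le]
      rw [e1, Int.cast_natCast]
    rw [e]
    rfl

end Ideals

lemma rpow_bound {n N : ℕ} (hn : 1 ≤ n) (hN : 1 ≤ N) {T : ℝ} (hT : 1 ≤ T) {q : ℝ} (hq : 1 ≤ q) :
    (1 + (T * N) ^ (1 / (n : ℝ)) / q) ^ (n - 1) ≤
      2 ^ (n - 1) * (N * T ^ (1 - 1 / (n : ℝ))) := by
  have hN' : (1 : ℝ) ≤ N := by exact_mod_cast hN
  have hn' : (1 : ℝ) ≤ n := by exact_mod_cast hn
  have hTN : 1 ≤ T * N := by nlinarith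
  have ht : 1 ≤ (T * N) ^ (1 / (n : ℝ)) := Real.one_le_rpow hTN (by positivity)
  have h1 : 1 + (T * N) ^ (1 / (n : ℝ)) / q ≤ 2 * (T * N) ^ (1 / (n : ℝ)) := by
    have : (T * N) ^ (1 / (n : ℝ)) / q ≤ (T * N) ^ (1 / (n : ℝ)) :=
      div_le_self (by linarith) hq
    linarith
  have h0 : 0 ≤ 1 + (T * N) ^ (1 / (n : ℝ)) / q := by positivity
  refine (pow_le_pow_left₀ h0 h1 _).trans ?_
  rw [mul_pow]
  refine mul_le_mul_of_nonneg_left ?_ (by positivity)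
  have e : (1 / (n : ℝ)) * ((n - 1 : ℕ) : ℝ) = 1 - 1 / (n : ℝ) := by
    rw [Nat.cast_sub hn]
    field_simp
    push_cast
    ring
  rw [← Real.rpow_natCast, ← Real.rpow_mul (by positivity), e,
    Real.mul_rpow (by linarith) (by linarith), mul_comm]
  refine mul_le_mul_of_nonneg_right ?_ (Real.rpow_nonneg (by linarith) _)
  have h2 : (1 : ℝ) - 1 / n ≤ 1 := by
    have : 0 ≤ 1 / (n : ℝ) := by positivity
    linarith
  calc (N : ℝ) ^ (1 - 1 / (n : ℝ)) ≤ (N : ℝ) ^ (1 : ℝ) := Real.rpow_le_rpow_of_exponent_le hN' h2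
    _ = N := Real.rpow_one _

theorem nfdMain (h1 : LatSum) (h2 : HEx) (h3 : Unfold) (h4 : PerN) : NFDmain := by
  intro K _ _ hodd 𝔟 h𝔟
  obtain ⟨C0, R, hC0, hR, hH⟩ := h2 K hodd
  choose C hC hlat using fun c => lat_sum h1 (𝔟 c) R hR
  have hn : 1 ≤ finrank ℚ K := finrank_pos
  have hn0 : (finrank ℚ K : ℝ) ≠ 0 := by positivity
  have hNpos : ∀ c, 1 ≤ Ideal.absNorm (𝔟 c : Ideal (𝓞 K)) := fun c =>
    Nat.pos_of_ne_zero (Ideal.absNorm_ne_zero_of_nonZeroDivisors (𝔟 c))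
  have hCnn : ∀ c : ClassGroup (𝓞 K), 0 ≤ C c * C0 *
      (2 ^ (finrank ℚ K - 1) * (Ideal.absNorm (𝔟 c : Ideal (𝓞 K)) : ℝ)) := fun c => by
    have := hC c
    positivity
  refine ⟨1 + ∑ c : ClassGroup (𝓞 K), C c * C0 *
    (2 ^ (finrank ℚ K - 1) * (Ideal.absNorm (𝔟 c : Ideal (𝓞 K)) : ℝ)),
    by have := Finset.sum_nonneg fun c (_ : c ∈ Finset.univ) => hCnn c; linarith, ?_⟩
  intro B G hG
  have hB : 0 ≤ B := by
    have := (norm_nonneg _).trans (hG.lip 1 0)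
    simpa using this
  obtain ⟨H, hHG⟩ := hH B G hG
  refine ⟨(∫ y, H y) / (cov0 K : ℂ), ?_⟩
  intro q _ χ T hT
  have hq : 0 < q := Nat.pos_of_ne_zero (NeZero.ne q)
  have hqR : (1 : ℝ) ≤ q := by exact_mod_cast hq
  have hqC : (q : ℂ) ≠ 0 := by exact_mod_cast hq.ne'
  have hcov0 : (cov0 K : ℂ) ≠ 0 := by exact_mod_cast (cov0_pos (K := K)).ne'
  rw [h3 K C0 R B G H hG hHG 𝔟 h𝔟 (fun m => χ (m : ZMod q)) T (by linarith)]
  have htpos : ∀ c, (0 : ℝ) < (T * Ideal.absNorm (𝔟 c : Ideal (𝓞 K))) ^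
      (1 / (finrank ℚ K : ℝ)) := by
    intro c
    have : (1 : ℝ) ≤ Ideal.absNorm (𝔟 c : Ideal (𝓞 K)) := by exact_mod_cast hNpos c
    exact Real.rpow_pos_of_pos (by nlinarith) _
  have hTN0 : ∀ c, (0 : ℝ) ≤ T * Ideal.absNorm (𝔟 c : Ideal (𝓞 K)) := fun c => by positivity
  have main : ∀ c : ClassGroup (𝓞 K),
      ‖(∑ᶠ α : (𝔟 c : Ideal (𝓞 K)),
          χ ((((Algebra.norm ℤ (α : 𝓞 K)).natAbs / Ideal.absNorm (𝔟 c : Ideal (𝓞 K)) : ℕ)) :
            ZMod q) *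
            H ((T * Ideal.absNorm (𝔟 c : Ideal (𝓞 K))) ^ (-(1 / (finrank ℚ K : ℝ))) •
              mixedEmbedding K ((α : 𝓞 K) : K))) -
        cs (𝔟 c : Ideal (𝓞 K)) χ * (T * ((∫ y, H y) / (cov0 K : ℂ)) / (q : ℂ) ^ finrank ℚ K)‖ ≤
      (q : ℝ) ^ finrank ℚ K * (C c * (C0 * B) *
        (1 + (T * Ideal.absNorm (𝔟 c : Ideal (𝓞 K))) ^ (1 / (finrank ℚ K : ℝ)) / q) ^
          (finrank ℚ K - 1)) := by
    intro c
    have hNc : (Ideal.absNorm (𝔟 c : Ideal (𝓞 K)) : ℂ) ≠ 0 := by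
      have := hNpos c
      exact_mod_cast (by omega : Ideal.absNorm (𝔟 c : Ideal (𝓞 K)) ≠ 0)
    set t : ℝ := (T * Ideal.absNorm (𝔟 c : Ideal (𝓞 K))) ^ (1 / (finrank ℚ K : ℝ)) with ht
    have ht0 : 0 < t := htpos c
    have hinv : (T * (Ideal.absNorm (𝔟 c : Ideal (𝓞 K)) : ℝ)) ^ (-(1 / (finrank ℚ K : ℝ))) =
        t⁻¹ := Real.rpow_neg (hTN0 c) _
    have hpow : t ^ finrank ℚ K = T * Ideal.absNorm (𝔟 c : Ideal (𝓞 K)) := by
      rw [ht, ← Real.rpow_natCast, ← Real.rpow_mul (hTN0 c), one_div, inv_mul_cancel₀ hn0,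
        Real.rpow_one]
    have htq : 0 < t / q := by positivity
    have e1 : ∀ α : (𝔟 c : Ideal (𝓞 K)),
        χ ((((Algebra.norm ℤ (α : 𝓞 K)).natAbs / Ideal.absNorm (𝔟 c : Ideal (𝓞 K)) : ℕ)) :
            ZMod q) *
            H ((T * Ideal.absNorm (𝔟 c : Ideal (𝓞 K))) ^ (-(1 / (finrank ℚ K : ℝ))) •
              mixedEmbedding K ((α : 𝓞 K) : K)) =
          χ ((rn (𝔟 c : Ideal (𝓞 K)) (α : 𝓞 K) : ℤ) : ZMod q) * H (t⁻¹ • emb (α : 𝓞 K)) := by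
      intro α
      rw [hinv]
      exact summand_eq hHG _ χ _ (inv_pos.2 ht0) _
    simp only [e1]
    have eM : (((t / q) ^ finrank ℚ K / cov (𝔟 c) : ℝ) : ℂ) * ∫ y, H y =
        T * ((∫ y, H y) / (cov0 K : ℂ)) / (q : ℂ) ^ finrank ℚ K := by
      rw [cov_eq, div_pow, hpow]
      push_cast
      field_simp
    rw [← eM]
    have hl := hlat c (C0 * B) H hHG.lip hHG.supp (t / q)
    exact class_char h4 (𝔟 c) H _ _ q χ t ht0 (fun v => (hl v htq).1) (fun v => (hl v htq).2)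
  have e2 : (T : ℂ) * ((∫ y, H y) / (cov0 K : ℂ)) *
      (∑ c : ClassGroup (𝓞 K), cs (𝔟 c : Ideal (𝓞 K)) χ) / (q : ℂ) ^ finrank ℚ K =
      ∑ c : ClassGroup (𝓞 K), cs (𝔟 c : Ideal (𝓞 K)) χ *
        (T * ((∫ y, H y) / (cov0 K : ℂ)) / (q : ℂ) ^ finrank ℚ K) := by
    rw [← Finset.sum_mul]
    ring
  rw [e2, ← Finset.sum_sub_distrib]
  refine (norm_sum_le _ _).trans ((Finset.sum_le_sum fun c _ => main c).trans ?_)
  have hTp : 0 ≤ T ^ (1 - 1 / (finrank ℚ K : ℝ)) := Real.rpow_nonneg (by linarith) _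
  have step : ∀ c : ClassGroup (𝓞 K), (q : ℝ) ^ finrank ℚ K * (C c * (C0 * B) *
        (1 + (T * Ideal.absNorm (𝔟 c : Ideal (𝓞 K))) ^ (1 / (finrank ℚ K : ℝ)) / q) ^
          (finrank ℚ K - 1)) ≤
      (C c * C0 * (2 ^ (finrank ℚ K - 1) * (Ideal.absNorm (𝔟 c : Ideal (𝓞 K)) : ℝ))) *
        (B * (q : ℝ) ^ finrank ℚ K * T ^ (1 - 1 / (finrank ℚ K : ℝ))) := by
    intro c
    have hb := rpow_bound hn (hNpos c) hT hqR
    have hCc : 0 ≤ (q : ℝ) ^ finrank ℚ K * (C c * (C0 * B)) := by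
      have := hC c
      positivity
    calc (q : ℝ) ^ finrank ℚ K * (C c * (C0 * B) *
          (1 + (T * Ideal.absNorm (𝔟 c : Ideal (𝓞 K))) ^ (1 / (finrank ℚ K : ℝ)) / q) ^
            (finrank ℚ K - 1))
        = (q : ℝ) ^ finrank ℚ K * (C c * (C0 * B)) *
          (1 + (T * Ideal.absNorm (𝔟 c : Ideal (𝓞 K))) ^ (1 / (finrank ℚ K : ℝ)) / q) ^
            (finrank ℚ K - 1) := by ring
      _ ≤ (q : ℝ) ^ finrank ℚ K * (C c * (C0 * B)) *
          (2 ^ (finrank ℚ K - 1) * ((Ideal.absNorm (𝔟 c : Ideal (𝓞 K)) : ℝ) *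
            T ^ (1 - 1 / (finrank ℚ K : ℝ)))) := mul_le_mul_of_nonneg_left hb hCc
      _ = _ := by ring
  refine (Finset.sum_le_sum fun c _ => step c).trans ?_
  rw [← Finset.sum_mul]
  have hnn : 0 ≤ B * (q : ℝ) ^ finrank ℚ K * T ^ (1 - 1 / (finrank ℚ K : ℝ)) := by positivity
  nlinarith

end Pool.Agent.Helper37.NF
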